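import Mathlib

open Polynomial

namespace X164.Arb

/-- `∑ P_j (1+X)^(N-j)` -/
noncomputable def TT (N : ℕ) (P : ℤ[X]) : ℤ[X] := (reflect N P).comp (1 + X)

lemma TT_mul (N M : ℕ) (P Q : ℤ[X]) (hP : P.natDegree ≤ N) (hQ : Q.natDegree ≤ M) :
    TT (N + M) (P * Q) = TT N P * TT M Q := by
  unfold TT
  rw [reflect_mul P Q hP hQ, mul_comp]

lemma TT_one_sub (e : ℕ) : TT e ((1 - X) ^ e) = X ^ e := by
  induction e with
  | zero =>
    unfold TT
    simp only [pow_zero]
    have : reflect 0 (1 : ℤ[X]) = 1 := by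
      have := reflect_C_mul_X_pow 0 0 (c := (1 : ℤ))
      simpa using this
    rw [this]; simp
  | succ e ih =>
    have h1 : ((1 - X : ℤ[X])).natDegree ≤ 1 := by
      have : (1 - X : ℤ[X]) = -(X - C 1) := by simp
      rw [this, natDegree_neg, natDegree_X_sub_C]
    have h2 : ((1 - X : ℤ[X]) ^ e).natDegree ≤ e := by
      calc ((1 - X : ℤ[X]) ^ e).natDegree ≤ e * (1 - X : ℤ[X]).natDegree := natDegree_pow_le
        _ ≤ e * 1 := Nat.mul_le_mul_left e h1
        _ = e := mul_one e
    rw [pow_succ, TT_mul e 1 _ _ h2 h1, ih, pow_succ]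
    congr 1
    unfold TT
    have h3 : reflect 1 (1 - X : ℤ[X]) = X - 1 := by
      ext i
      rw [coeff_reflect]
      rcases i with _ | _ | i
      · rw [revAt_le (by norm_num)]; simp [coeff_one, coeff_X]
      · rw [revAt_le (by norm_num)]; simp [coeff_one, coeff_X]
      · rw [revAt_eq_self_of_lt (by omega)]
        simp [coeff_one, coeff_X]
    rw [h3]
    simp

lemma one_sub_natDegree (e : ℕ) : ((1 - X : ℤ[X]) ^ e).natDegree ≤ e := by
  have h1 : ((1 - X : ℤ[X])).natDegree ≤ 1 := by
    have : (1 - X : ℤ[X]) = -(X - C 1) := by simp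
    rw [this, natDegree_neg, natDegree_X_sub_C]
  calc ((1 - X : ℤ[X]) ^ e).natDegree ≤ e * (1 - X : ℤ[X]).natDegree := natDegree_pow_le
    _ ≤ e * 1 := Nat.mul_le_mul_left e h1
    _ = e := mul_one e

/-- truncation keeps degrees `≤ d` -/
noncomputable def tr (d : ℕ) (F : PowerSeries ℤ) : ℤ[X] := ∑ s ∈ Finset.range (d + 1), C (PowerSeries.coeff s F) * X ^ s

lemma tr_coeff (d : ℕ) (F : PowerSeries ℤ) (s : ℕ) : (tr d F).coeff s = if s ≤ d then PowerSeries.coeff s F else 0 := by
  unfold tr
  simp only [finsetSum_coeff, coeff_C_mul_X_pow]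
  split_ifs with h
  · rw [Finset.sum_eq_single s]
    · simp
    · intro b _ hb; rw [if_neg (Ne.symm hb)]
    · intro h2; exact absurd (Finset.mem_range.mpr (by omega)) h2
  · apply Finset.sum_eq_zero
    intro b hb
    rw [Finset.mem_range] at hb
    rw [if_neg (by omega)]

lemma tr_natDegree (d : ℕ) (F : PowerSeries ℤ) : (tr d F).natDegree ≤ d := by
  rw [natDegree_le_iff_coeff_eq_zero]
  intro s hs
  rw [tr_coeff, if_neg (by omega)]

/-- the truncation step -/
lemma step (m e : ℕ) (F : PowerSeries ℤ) (P : ℤ[X]) (hP : P.natDegree ≤ (m + 1) * e)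
    (hF : (1 - PowerSeries.X) ^ e * F = (P : PowerSeries ℤ)) (i : ℕ) :
    (X ^ e * TT (m * e) (tr (m * e) F)).coeff i = if e ≤ i then (TT ((m + 1) * e) P).coeff i else 0 := by
  rw [coeff_X_pow_mul']
  split_ifs with hi
  · -- coefficient `i ≥ e` of the difference vanishes
    have h1 : X ^ e * TT (m * e) (tr (m * e) F) = TT ((m + 1) * e) ((1 - X) ^ e * tr (m * e) F) := by
      rw [show (m + 1) * e = e + m * e by ring, TT_mul e (m * e) _ _ (one_sub_natDegree e) (tr_natDegree _ _), TT_one_sub]
    have h2 : (TT (m * e) (tr (m * e) F)).coeff (i - e) = (X ^ e * TT (m * e) (tr (m * e) F)).coeff i := by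
      rw [coeff_X_pow_mul', if_pos hi]
    rw [h2, h1]
    set R : ℤ[X] := P - (1 - X) ^ e * tr (m * e) F with hR
    have h3 : TT ((m + 1) * e) P = TT ((m + 1) * e) ((1 - X) ^ e * tr (m * e) F) + TT ((m + 1) * e) R := by
      unfold TT
      rw [← add_comp]
      congr 1
      ext j
      rw [coeff_add, coeff_reflect, coeff_reflect, coeff_reflect, hR, coeff_sub]
      ring
    rw [h3, coeff_add]
    have hRlow : ∀ j, j ≤ m * e → R.coeff j = 0 := by
      intro j hj
      have h4 : (R : PowerSeries ℤ) = (1 - PowerSeries.X) ^ e * (F - (tr (m * e) F : PowerSeries ℤ)) := by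
        rw [hR, Polynomial.coe_sub, Polynomial.coe_mul, Polynomial.coe_pow, Polynomial.coe_sub, Polynomial.coe_one,
          Polynomial.coe_X, mul_sub, hF]
      rw [← Polynomial.coeff_coe, h4, PowerSeries.coeff_mul]
      apply Finset.sum_eq_zero
      intro q hq
      rw [Finset.HasAntidiagonal.mem_antidiagonal] at hq
      rw [map_sub, Polynomial.coeff_coe, tr_coeff, if_pos (by omega), sub_self, mul_zero]
    have hRhigh : R.natDegree ≤ (m + 1) * e := by
      rw [hR]
      refine (natDegree_sub_le _ _).trans (max_le hP ?_)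
      refine natDegree_mul_le.trans ?_
      have := one_sub_natDegree e
      have := tr_natDegree (m * e) F
      have h5 : (m + 1) * e = e + m * e := by ring
      omega
    have hrefl : ∀ j, e ≤ j → (reflect ((m + 1) * e) R).coeff j = 0 := by
      intro j hj
      rw [coeff_reflect]
      rcases le_or_gt j ((m + 1) * e) with h | h
      · rw [revAt_le h]
        apply hRlow
        have h5 : (m + 1) * e = e + m * e := by ring
        omega
      · rw [revAt_eq_self_of_lt h]
        exact coeff_eq_zero_of_natDegree_lt (by omega)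
    have hz : (TT ((m + 1) * e) R).coeff i = 0 := by
      unfold TT
      by_cases h0 : reflect ((m + 1) * e) R = 0
      · rw [h0]; simp
      · apply coeff_eq_zero_of_natDegree_lt
        have h6 : (reflect ((m + 1) * e) R).natDegree < e := by
          by_contra h7
          push Not at h7
          have := hrefl _ h7
          exact h0 (leadingCoeff_eq_zero.mp this)
        have h7 : ((1 : ℤ[X]) + X).natDegree ≤ 1 := by
          have : (1 + X : ℤ[X]) = X + C 1 := by simp [add_comm]
          rw [this, natDegree_X_add_C]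
        calc ((reflect ((m + 1) * e) R).comp (1 + X)).natDegree
            ≤ (reflect ((m + 1) * e) R).natDegree * (1 + X : ℤ[X]).natDegree := natDegree_comp_le
          _ ≤ (reflect ((m + 1) * e) R).natDegree * 1 := Nat.mul_le_mul_left _ h7
          _ < i := by omega
    rw [hz, add_zero]
  · rfl

lemma TT_eval_zero (N : ℕ) (Q : ℤ[X]) (hQ : Q.natDegree ≤ N) : (TT N Q).coeff 0 = Q.eval 1 := by
  unfold TT
  rw [coeff_zero_eq_eval_zero, eval_comp]
  simp only [eval_add, eval_one, eval_X, add_zero]
  have h1 : (reflect N Q).natDegree < N + 1 := by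
    rw [Nat.lt_succ_iff, natDegree_le_iff_coeff_eq_zero]
    intro j hj
    rw [coeff_reflect, revAt_eq_self_of_lt (by omega)]
    exact coeff_eq_zero_of_natDegree_lt (by omega)
  rw [eval_eq_sum_range' h1, eval_eq_sum_range' (n := N + 1) (by omega : Q.natDegree < N + 1)]
  simp only [one_pow, mul_one]
  rw [← Finset.sum_range_reflect]
  apply Finset.sum_congr rfl
  intro j hj
  rw [Finset.mem_range] at hj
  rw [coeff_reflect, revAt_le (by omega)]
  congr 1
  omega

end X164.Arb
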