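import Pool.Agent.X164.AR.Alg

open Polynomial Finset

namespace X164.Arb

variable {ι : Type} [Fintype ι] [DecidableEq ι]

/-- weighted count of the functions supported on `E` with sum `s` -/
def cnt (φ : (ι → ℕ) → ℤ) (E : Finset ι) (s : ℕ) : ℤ := ∑ x ∈ piAntidiag E s, φ x

/-- `φ` depends only on the values on `E` -/
def Dep (φ : (ι → ℕ) → ℤ) (E : Finset ι) : Prop := ∀ x y : ι → ℕ, (∀ i ∈ E, x i = y i) → φ x = φ y

lemma cnt_union (φ₁ φ₂ : (ι → ℕ) → ℤ) (E₁ E₂ : Finset ι) (hd : Disjoint E₁ E₂)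
    (h₁ : Dep φ₁ E₁) (h₂ : Dep φ₂ E₂) (s : ℕ) :
    cnt (fun x => φ₁ x * φ₂ x) (E₁ ∪ E₂) s = ∑ p ∈ HasAntidiagonal.antidiagonal s, cnt φ₁ E₁ p.1 * cnt φ₂ E₂ p.2 := by
  have hdj : ∀ i, i ∈ E₁ → i ∉ E₂ := fun i a b => Finset.disjoint_left.mp hd a b
  have h3 : ∑ p ∈ HasAntidiagonal.antidiagonal s, cnt φ₁ E₁ p.1 * cnt φ₂ E₂ p.2 =
      ∑ q ∈ (HasAntidiagonal.antidiagonal s).sigma (fun p => piAntidiag E₁ p.1 ×ˢ piAntidiag E₂ p.2),
        φ₁ q.2.1 * φ₂ q.2.2 := by
    rw [Finset.sum_sigma]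
    apply Finset.sum_congr rfl
    intro p _
    unfold cnt
    rw [Finset.sum_mul_sum, Finset.sum_product]
  rw [h3]
  unfold cnt
  symm
  apply Finset.sum_bij (fun q _ => q.2.1 + q.2.2)
  · rintro ⟨⟨a, b⟩, ⟨x, y⟩⟩ hq
    simp only [mem_sigma, mem_product, mem_piAntidiag, HasAntidiagonal.mem_antidiagonal] at hq
    obtain ⟨hab, ⟨hx, hxs⟩, hy, hys⟩ := hq
    rw [mem_piAntidiag]
    have hx0 : ∀ i ∈ E₂, x i = 0 := by
      intro i hi; by_contra h; exact hdj i (hxs i h) hi
    have hy0 : ∀ i ∈ E₁, y i = 0 := by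
      intro i hi; by_contra h; exact hdj i hi (hys i h)
    constructor
    · rw [Finset.sum_union hd]
      simp only [Pi.add_apply]
      rw [Finset.sum_add_distrib, Finset.sum_add_distrib, Finset.sum_eq_zero hx0, Finset.sum_eq_zero hy0]
      have e1 : E₁.sum x = a := hx
      have e2 : E₂.sum y = b := hy
      rw [e1, e2]; omega
    · intro i hi
      simp only [Pi.add_apply] at hi
      rw [mem_union]
      by_cases h : x i = 0
      · right; apply hys; omega
      · left; exact hxs i h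
  · rintro ⟨⟨a, b⟩, ⟨x, y⟩⟩ hq ⟨⟨a', b'⟩, ⟨x', y'⟩⟩ hq' heq
    simp only [mem_sigma, mem_product, mem_piAntidiag, HasAntidiagonal.mem_antidiagonal] at hq hq'
    obtain ⟨hab, ⟨hx, hxs⟩, hy, hys⟩ := hq
    obtain ⟨hab', ⟨hx', hxs'⟩, hy', hys'⟩ := hq'
    have key : ∀ i, x i = x' i ∧ y i = y' i := by
      intro i
      have hi : x i + y i = x' i + y' i := congrFun heq i
      by_cases hE : i ∈ E₁
      · have h1 : y i = 0 := by by_contra h; exact hdj i hE (hys i h)
        have h2 : y' i = 0 := by by_contra h; exact hdj i hE (hys' i h)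
        omega
      · have h1 : x i = 0 := by by_contra h; exact hE (hxs i h)
        have h2 : x' i = 0 := by by_contra h; exact hE (hxs' i h)
        omega
    have ex : x = x' := funext fun i => (key i).1
    have ey : y = y' := funext fun i => (key i).2
    subst ex; subst ey
    have e1 : a = a' := hx.symm.trans hx'
    have e2 : b = b' := hy.symm.trans hy'
    rw [e1, e2]
  · intro x hx
    rw [mem_piAntidiag] at hx
    obtain ⟨hx, hxs⟩ := hx
    refine ⟨⟨(∑ i ∈ E₁, x i, ∑ i ∈ E₂, x i), (fun i => if i ∈ E₁ then x i else 0, fun i => if i ∈ E₂ then x i else 0)⟩, ?_, ?_⟩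
    · simp only [mem_sigma, mem_product, mem_piAntidiag, HasAntidiagonal.mem_antidiagonal]
      refine ⟨?_, ⟨?_, ?_⟩, ?_, ?_⟩
      · rw [← Finset.sum_union hd]; exact hx
      · exact Finset.sum_congr rfl (fun i hi => if_pos hi)
      · intro i hi; by_contra h; simp [h] at hi
      · exact Finset.sum_congr rfl (fun i hi => if_pos hi)
      · intro i hi; by_contra h; simp [h] at hi
    · funext i
      simp only [Pi.add_apply]
      by_cases h1 : i ∈ E₁
      · simp [h1, hdj i h1]
      · by_cases h2 : i ∈ E₂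
        · simp [h1, h2]
        · simp only [h1, h2, if_false, add_zero]
          by_contra h3
          have := hxs i (Ne.symm h3)
          rw [mem_union] at this
          tauto
  · rintro ⟨⟨a, b⟩, ⟨x, y⟩⟩ hq
    simp only [mem_sigma, mem_product, mem_piAntidiag, HasAntidiagonal.mem_antidiagonal] at hq
    obtain ⟨hab, ⟨hx, hxs⟩, hy, hys⟩ := hq
    simp only
    congr 1
    · apply h₁
      intro i hi
      have : y i = 0 := by by_contra h; exact hdj i hi (hys i h)
      simp [this]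
    · apply h₂
      intro i hi
      have : x i = 0 := by by_contra h; exact hdj i (hxs i h) hi
      simp [this]

/-- indicator of the upper conditions -/
def fI (m : ℕ) (𝓛 : Finset (Finset ι)) (x : ι → ℕ) : ℤ := if ∀ D ∈ 𝓛, ∑ i ∈ D, x i ≤ m * D.card then 1 else 0

/-- indicator of the lower conditions times the product of binomials -/
def gI (m : ℕ) (E : Finset ι) (𝓛 : Finset (Finset ι)) (c : ι → ℕ) : ℤ :=
  (if ∀ D ∈ 𝓛, D.card ≤ ∑ i ∈ D, c i then 1 else 0) * ∏ i ∈ E, ((m + 1).choose (c i) : ℤ)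

/-- laminar families built from singletons, disjoint unions and closing -/
inductive Lam : Finset ι → Finset (Finset ι) → Prop
  | empty : Lam ∅ ∅
  | single (i : ι) : Lam {i} ∅
  | union (E₁ E₂ : Finset ι) (L₁ L₂ : Finset (Finset ι)) : Disjoint E₁ E₂ → Lam E₁ L₁ → Lam E₂ L₂ →
      Lam (E₁ ∪ E₂) (L₁ ∪ L₂)
  | close (E : Finset ι) (L : Finset (Finset ι)) : Lam E L → Lam E (insert E L)

lemma Lam.sub {E : Finset ι} {L : Finset (Finset ι)} (h : Lam E L) : ∀ D ∈ L, D ⊆ E := by
  induction h with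
  | empty => intro D hD; simp at hD
  | single i => intro D hD; simp at hD
  | union E₁ E₂ L₁ L₂ _ _ _ ih1 ih2 =>
    intro D hD
    rw [mem_union] at hD
    rcases hD with h | h
    · exact (ih1 D h).trans subset_union_left
    · exact (ih2 D h).trans subset_union_right
  | close E L _ ih =>
    intro D hD
    rw [mem_insert] at hD
    rcases hD with rfl | h
    · exact Subset.refl _
    · exact ih D h

lemma fI_dep (m : ℕ) {E : Finset ι} {L : Finset (Finset ι)} (h : ∀ D ∈ L, D ⊆ E) : Dep (fI m L) E := by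
  intro x y hxy
  have : ∀ D ∈ L, ∑ i ∈ D, x i = ∑ i ∈ D, y i := fun D hD =>
    Finset.sum_congr rfl (fun i hi => hxy i (h D hD hi))
  unfold fI
  congr 1
  apply propext
  constructor
  · intro h1 D hD; rw [← this D hD]; exact h1 D hD
  · intro h1 D hD; rw [this D hD]; exact h1 D hD

lemma gI_dep (m : ℕ) {E : Finset ι} {L : Finset (Finset ι)} (h : ∀ D ∈ L, D ⊆ E) : Dep (gI m E L) E := by
  intro x y hxy
  have : ∀ D ∈ L, ∑ i ∈ D, x i = ∑ i ∈ D, y i := fun D hD =>
    Finset.sum_congr rfl (fun i hi => hxy i (h D hD hi))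
  unfold gI
  congr 1
  · congr 1
    apply propext
    constructor
    · intro h1 D hD; rw [← this D hD]; exact h1 D hD
    · intro h1 D hD; rw [this D hD]; exact h1 D hD
  · apply Finset.prod_congr rfl
    intro i hi; rw [hxy i hi]

/-- the two generating functions -/
noncomputable def FS (m : ℕ) (E : Finset ι) (L : Finset (Finset ι)) : PowerSeries ℤ :=
  PowerSeries.mk (fun s => cnt (fI m L) E s)

noncomputable def GS (m : ℕ) (E : Finset ι) (L : Finset (Finset ι)) : PowerSeries ℤ :=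
  PowerSeries.mk (fun s => cnt (gI m E L) E s)

lemma FS_union (m : ℕ) (E₁ E₂ : Finset ι) (L₁ L₂ : Finset (Finset ι)) (hd : Disjoint E₁ E₂)
    (h₁ : ∀ D ∈ L₁, D ⊆ E₁) (h₂ : ∀ D ∈ L₂, D ⊆ E₂) :
    FS m (E₁ ∪ E₂) (L₁ ∪ L₂) = FS m E₁ L₁ * FS m E₂ L₂ := by
  ext s
  rw [PowerSeries.coeff_mul]
  simp only [FS, PowerSeries.coeff_mk]
  rw [← cnt_union _ _ _ _ hd (fI_dep m h₁) (fI_dep m h₂)]
  congr 1
  funext x
  unfold fI
  by_cases a : ∀ D ∈ L₁, ∑ i ∈ D, x i ≤ m * D.card
  · by_cases b : ∀ D ∈ L₂, ∑ i ∈ D, x i ≤ m * D.card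
    · rw [if_pos a, if_pos b, if_pos]
      · norm_num
      · intro D hD
        rcases mem_union.mp hD with h | h
        · exact a D h
        · exact b D h
    · rw [if_neg b, if_neg]
      · simp
      · intro h; exact b (fun D hD => h D (mem_union_right _ hD))
  · rw [if_neg a, if_neg]
    · simp
    · intro h; exact a (fun D hD => h D (mem_union_left _ hD))

lemma GS_union (m : ℕ) (E₁ E₂ : Finset ι) (L₁ L₂ : Finset (Finset ι)) (hd : Disjoint E₁ E₂)
    (h₁ : ∀ D ∈ L₁, D ⊆ E₁) (h₂ : ∀ D ∈ L₂, D ⊆ E₂) :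
    GS m (E₁ ∪ E₂) (L₁ ∪ L₂) = GS m E₁ L₁ * GS m E₂ L₂ := by
  ext s
  rw [PowerSeries.coeff_mul]
  simp only [GS, PowerSeries.coeff_mk]
  rw [← cnt_union _ _ _ _ hd (gI_dep m h₁) (gI_dep m h₂)]
  congr 1
  funext x
  unfold gI
  rw [Finset.prod_union hd]
  by_cases a : ∀ D ∈ L₁, D.card ≤ ∑ i ∈ D, x i
  · by_cases b : ∀ D ∈ L₂, D.card ≤ ∑ i ∈ D, x i
    · rw [if_pos a, if_pos b, if_pos]
      · ring
      · intro D hD
        rcases mem_union.mp hD with h | h
        · exact a D h
        · exact b D h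
    · rw [if_neg b, if_neg]
      · simp
      · intro h; exact b (fun D hD => h D (mem_union_right _ hD))
  · rw [if_neg a, if_neg]
    · simp
    · intro h; exact a (fun D hD => h D (mem_union_left _ hD))

lemma cnt_congr (φ ψ : (ι → ℕ) → ℤ) (E : Finset ι) (s : ℕ) (h : ∀ x : ι → ℕ, ∑ i ∈ E, x i = s → φ x = ψ x) :
    cnt φ E s = cnt ψ E s := by
  unfold cnt
  apply Finset.sum_congr rfl
  intro x hx
  rw [mem_piAntidiag] at hx
  exact h x hx.1

lemma FS_close (m : ℕ) (E : Finset ι) (L : Finset (Finset ι)) :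
    FS m E (insert E L) = ((tr (m * E.card) (FS m E L) : ℤ[X]) : PowerSeries ℤ) := by
  ext s
  rw [Polynomial.coeff_coe, tr_coeff]
  simp only [FS, PowerSeries.coeff_mk]
  split_ifs with h
  · apply cnt_congr
    intro x hx
    unfold fI
    congr 1
    apply propext
    rw [Finset.forall_mem_insert, hx]
    exact ⟨fun h => h.2, fun h2 => ⟨h, h2⟩⟩
  · unfold cnt
    apply Finset.sum_eq_zero
    intro x hx
    rw [mem_piAntidiag] at hx
    unfold fI
    rw [if_neg]
    intro h2
    have h3 := h2 E (mem_insert_self _ _)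
    have h4 : ∑ i ∈ E, x i = s := hx.1
    omega

lemma GS_close (m : ℕ) (E : Finset ι) (L : Finset (Finset ι)) (s : ℕ) :
    PowerSeries.coeff s (GS m E (insert E L)) = if E.card ≤ s then PowerSeries.coeff s (GS m E L) else 0 := by
  simp only [GS, PowerSeries.coeff_mk]
  split_ifs with h
  · apply cnt_congr
    intro x hx
    unfold gI
    congr 2
    apply propext
    rw [Finset.forall_mem_insert, hx]
    exact ⟨fun h => h.2, fun h2 => ⟨h, h2⟩⟩
  · unfold cnt
    apply Finset.sum_eq_zero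
    intro x hx
    rw [mem_piAntidiag] at hx
    unfold gI
    rw [if_neg, zero_mul]
    intro h2
    have h3 := h2 E (mem_insert_self _ _)
    have h4 : ∑ i ∈ E, x i = s := hx.1
    omega

lemma piAnti_single (i : ι) (s : ℕ) : piAntidiag ({i} : Finset ι) s = {Pi.single i s} := by
  ext x
  rw [mem_piAntidiag, mem_singleton]
  constructor
  · rintro ⟨h1, h2⟩
    rw [Finset.sum_singleton] at h1
    funext j
    by_cases hj : j = i
    · subst hj; simp [h1]
    · rw [Pi.single_eq_of_ne hj]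
      by_contra h
      exact hj (mem_singleton.mp (h2 j h))
  · rintro rfl
    refine ⟨by simp, ?_⟩
    intro j hj
    rw [mem_singleton]
    by_contra h
    exact hj (Pi.single_eq_of_ne h _)

lemma TT_one (N : ℕ) : TT N 1 = (1 + X) ^ N := by
  unfold TT
  have : reflect N (1 : ℤ[X]) = X ^ N := by
    have := reflect_C_mul_X_pow N 0 (c := (1 : ℤ))
    simpa [revAt_le (Nat.zero_le N)] using this
  rw [this]; simp

lemma claim (m : ℕ) {E : Finset ι} {L : Finset (Finset ι)} (h : Lam E L) :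
    ∃ P : ℤ[X], P.natDegree ≤ (m + 1) * E.card ∧ (1 - PowerSeries.X) ^ E.card * FS m E L = (P : PowerSeries ℤ) ∧
      GS m E L = ((TT ((m + 1) * E.card) P : ℤ[X]) : PowerSeries ℤ) := by
  induction h with
  | empty =>
    refine ⟨1, by simp, ?_, ?_⟩
    · ext s
      simp only [card_empty, pow_zero, one_mul, FS, PowerSeries.coeff_mk, Polynomial.coe_one, PowerSeries.coeff_one]
      unfold cnt
      rw [piAntidiag_empty]
      split_ifs <;> simp [fI]
    · ext s
      simp only [card_empty, mul_zero, TT_one, pow_zero, GS, PowerSeries.coeff_mk, Polynomial.coe_one, PowerSeries.coeff_one]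
      unfold cnt
      rw [piAntidiag_empty]
      split_ifs <;> simp [gI]
  | single i =>
    refine ⟨1, by simp, ?_, ?_⟩
    · have : FS m {i} (∅ : Finset (Finset ι)) = PowerSeries.mk 1 := by
        ext s
        simp only [FS, PowerSeries.coeff_mk, Pi.one_apply]
        unfold cnt
        rw [piAnti_single]
        simp [fI]
      rw [this, card_singleton, pow_one, mul_comm, PowerSeries.mk_one_mul_one_sub_eq_one]
      simp
    · ext s
      simp only [card_singleton, mul_one, TT_one, GS, PowerSeries.coeff_mk, Polynomial.coeff_coe]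
      unfold cnt
      rw [piAnti_single, coeff_one_add_X_pow]
      simp [gI]
  | union E₁ E₂ L₁ L₂ hd h1 h2 ih1 ih2 =>
    obtain ⟨P₁, a1, a2, a3⟩ := ih1
    obtain ⟨P₂, b1, b2, b3⟩ := ih2
    have hc : (E₁ ∪ E₂).card = E₁.card + E₂.card := card_union_of_disjoint hd
    refine ⟨P₁ * P₂, ?_, ?_, ?_⟩
    · rw [hc, mul_add]
      exact natDegree_mul_le.trans (Nat.add_le_add a1 b1)
    · rw [FS_union m E₁ E₂ L₁ L₂ hd h1.sub h2.sub, hc, pow_add, Polynomial.coe_mul, ← a2, ← b2]
      ring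
    · rw [GS_union m E₁ E₂ L₁ L₂ hd h1.sub h2.sub, hc, mul_add, TT_mul _ _ _ _ a1 b1, Polynomial.coe_mul, a3, b3]
  | close E L h ih =>
    obtain ⟨P, a1, a2, a3⟩ := ih
    have hN : (m + 1) * E.card = E.card + m * E.card := by ring
    refine ⟨(1 - X) ^ E.card * tr (m * E.card) (FS m E L), ?_, ?_, ?_⟩
    · rw [hN]
      exact natDegree_mul_le.trans (Nat.add_le_add (one_sub_natDegree _) (tr_natDegree _ _))
    · rw [FS_close, Polynomial.coe_mul, Polynomial.coe_pow, Polynomial.coe_sub, Polynomial.coe_one, Polynomial.coe_X]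
    · rw [hN, TT_mul _ _ _ _ (one_sub_natDegree _) (tr_natDegree _ _), TT_one_sub]
      ext s
      rw [GS_close, Polynomial.coeff_coe, step m E.card (FS m E L) P a1 a2 s, a3, Polynomial.coeff_coe]

lemma total (m : ℕ) {E : Finset ι} {L : Finset (Finset ι)} (h : Lam E L) :
    ∑ s ∈ range (m * E.card + 1), cnt (fI m (insert E L)) E s = cnt (gI m E (insert E L)) E E.card := by
  obtain ⟨P, a1, a2, a3⟩ := claim m h
  have h1 : cnt (gI m E (insert E L)) E E.card = PowerSeries.coeff E.card (GS m E (insert E L)) := by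
    simp only [GS, PowerSeries.coeff_mk]
  rw [h1, GS_close, if_pos (le_refl _), a3, Polynomial.coeff_coe]
  have h2 := step m E.card (FS m E L) P a1 a2 E.card
  rw [if_pos (le_refl _), coeff_X_pow_mul', if_pos (le_refl _), Nat.sub_self, TT_eval_zero _ _ (tr_natDegree _ _)] at h2
  rw [← h2, eval_eq_sum_range' (n := m * E.card + 1) (by have := tr_natDegree (m * E.card) (FS m E L); omega)]
  apply Finset.sum_congr rfl
  intro s hs
  rw [one_pow, mul_one]
  have h3 := FS_close m E L
  have h4 := congrArg (PowerSeries.coeff s) h3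
  rw [Polynomial.coeff_coe] at h4
  rw [← h4]
  simp only [FS, PowerSeries.coeff_mk]

end X164.Arb
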