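import Mathlib

open Polynomial Pointwise

namespace X164.Arb

/-- An arbor of size `n`: a rooted tree whose vertices are the blocks of a set partition of `Fin n`.
The vertices are `Fin k`, `blk i` is the block containing `i` (surjective: the blocks are nonempty),
the tree is given by its root and the parent map (every vertex reaches the root). -/
structure Arbor (n : ℕ) where
  k : ℕ
  blk : Fin n → Fin k
  surj : Function.Surjective blk
  root : Fin k
  par : Fin k → Fin k
  par_root : par root = root
  tree : ∀ v, ∃ j : ℕ, par^[j] v = root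

open Classical in
/-- `𝒟(v)`: the union of the block `v` and of all blocks that are descendants of `v` -/
noncomputable def Arbor.D {n : ℕ} (τ : Arbor n) (v : Fin τ.k) : Finset (Fin n) :=
  Finset.univ.filter (fun i => ∃ j : ℕ, τ.par^[j] (τ.blk i) = v)

/-- the arbor polytope -/
def Arbor.Q {n : ℕ} (τ : Arbor n) : Set (Fin n → ℝ) :=
  {x | (∀ i, 0 ≤ x i) ∧ ∀ v, ∑ i ∈ τ.D v, x i ≤ ((τ.D v).card : ℝ)}

/-- number of integer points of `m • P` -/
noncomputable def ehr {n : ℕ} (P : Set (Fin n → ℝ)) (m : ℕ) : ℕ :=
  Nat.card {x : Fin n → ℤ // (fun i => ((x i : ℤ) : ℝ)) ∈ (m : ℝ) • P}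

/-- number of descents of a word with `N+1` letters -/
def desc {N : ℕ} (w : Fin (N + 1) → Fin (N + 1)) : ℕ :=
  (Finset.univ.filter (fun i : Fin N => w i.succ < w i.castSucc)).card

open Classical in
/-- the set of words `𝒲_τ` -/
noncomputable def Arbor.W {N : ℕ} (τ : Arbor (N + 1)) : Finset (Fin (N + 1) → Fin (N + 1)) :=
  Finset.univ.filter (fun w => ∀ v, (τ.D v).card ≤ (Finset.univ.filter (fun j => w j ∈ τ.D v)).card)

end X164.Arb
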