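import Pool.Agent.X164.AR.Word

open Finset

namespace X164.Arb

/-- cells of the grid, ordered by the first coordinate and then decreasingly by the letter -/
abbrev Cell (m N : ℕ) := Lex (Fin (m + 1) × (Fin (N + 1))ᵒᵈ)

/-- the column of the letter `i` -/
def sl {m N : ℕ} (S : Finset (Cell m N)) (i : Fin (N + 1)) : Finset (Fin (m + 1)) :=
  univ.filter (fun a => toLex (a, OrderDual.toDual i) ∈ S)

/-- content of a set of cells -/
def cS {m N : ℕ} (S : Finset (Cell m N)) : Fin (N + 1) → ℕ := fun i => (sl S i).card

/-- content of a word -/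
def cont {N : ℕ} (w : Fin (N + 1) → Fin (N + 1)) : Fin (N + 1) → ℕ := fun i => (univ.filter (fun j => w j = i)).card

lemma sum_cS {m N : ℕ} (S : Finset (Cell m N)) : ∑ i, cS S i = S.card := by
  classical
  rw [Finset.card_eq_sum_card_fiberwise (s := S) (t := (univ : Finset (Fin (N + 1))))
    (f := fun p => OrderDual.ofDual (ofLex p).2) (fun p _ => mem_coe.mpr (mem_univ _))]
  apply Finset.sum_congr rfl
  intro i _
  unfold cS
  apply Finset.card_bij (fun a _ => (toLex (a, OrderDual.toDual i) : Cell m N))
  · intro a ha
    simp only [sl, mem_filter, mem_univ, true_and] at ha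
    rw [mem_filter]
    exact ⟨ha, rfl⟩
  · intro a _ a' _ h
    have := congrArg (fun p : Cell m N => (ofLex p).1) h
    exact this
  · intro p hp
    rw [mem_filter] at hp
    have he : (toLex ((ofLex p).1, OrderDual.toDual i) : Cell m N) = p := by
      rw [← hp.2]; rfl
    refine ⟨(ofLex p).1, ?_, he⟩
    simp only [sl, mem_filter, mem_univ, true_and]
    rw [he]; exact hp.1

lemma count2 {m N : ℕ} (Φ : (Fin (N + 1) → ℕ) → Prop) [DecidablePred Φ] :
    ∑ w ∈ univ.filter (fun w : Fin (N + 1) → Fin (N + 1) => Φ (cont w)), (AA m w).card =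
      ((powersetCard (N + 1) (univ : Finset (Cell m N))).filter (fun S => Φ (cS S))).card := by
  classical
  rw [← card_SM (α := Cell m N) (N + 1) (fun S => Φ (cS S)), ← Finset.card_sigma]
  apply Finset.card_bij (fun q _ => fun i => (toLex (q.2 i, OrderDual.toDual (q.1 i)) : Cell m N))
  · rintro ⟨w, a⟩ hq
    simp only [mem_sigma, mem_filter, mem_univ, true_and, AA] at hq
    obtain ⟨hw, ha⟩ := hq
    rw [mem_filter]
    have hsm : StrictMono (fun i => (toLex (a i, OrderDual.toDual (w i)) : Cell m N)) := by
      rw [Fin.strictMono_iff_lt_succ]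
      intro i
      rw [Prod.Lex.toLex_lt_toLex]
      rcases ha i with h | ⟨h1, h2⟩
      · exact Or.inl h
      · exact Or.inr ⟨h1, OrderDual.toDual_lt_toDual.mpr h2⟩
    refine ⟨mem_univ _, hsm, ?_⟩
    have hc : cS (univ.image (fun i => (toLex (a i, OrderDual.toDual (w i)) : Cell m N))) = cont w := by
      funext i
      unfold cS cont
      symm
      apply Finset.card_bij (fun j _ => a j)
      · intro j hj
        rw [mem_filter] at hj
        simp only [sl, mem_filter, mem_univ, true_and, mem_image]
        exact ⟨j, by rw [hj.2]⟩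
      · intro j hj j' hj' h
        rw [mem_filter] at hj hj'
        apply hsm.injective
        show (toLex (a j, OrderDual.toDual (w j)) : Cell m N) = toLex (a j', OrderDual.toDual (w j'))
        rw [hj.2, hj'.2, h]
      · intro x hx
        simp only [sl, mem_filter, mem_univ, true_and, mem_image] at hx
        obtain ⟨j, hj⟩ := hx
        have h1 : a j = x := congrArg (fun p : Cell m N => (ofLex p).1) hj
        have h2 : w j = i := congrArg (fun p : Cell m N => OrderDual.ofDual (ofLex p).2) hj
        exact ⟨j, by rw [mem_filter]; exact ⟨mem_univ _, h2⟩, h1⟩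
    show Φ (cS _)
    rw [hc]; exact hw
  · rintro ⟨w, a⟩ _ ⟨w', a'⟩ _ h
    have h1 : a = a' := by
      funext i
      exact congrArg (fun p : Cell m N => (ofLex p).1) (congrFun h i)
    have h2 : w = w' := by
      funext i
      exact congrArg (fun p : Cell m N => OrderDual.ofDual (ofLex p).2) (congrFun h i)
    rw [h1, h2]
  · intro b hb
    rw [mem_filter] at hb
    obtain ⟨_, hsm, hΦ⟩ := hb
    set w : Fin (N + 1) → Fin (N + 1) := fun i => OrderDual.ofDual (ofLex (b i)).2 with hw
    set a : Fin (N + 1) → Fin (m + 1) := fun i => (ofLex (b i)).1 with ha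
    have hb2 : (fun i => (toLex (a i, OrderDual.toDual (w i)) : Cell m N)) = b := by
      funext i; rfl
    refine ⟨⟨w, a⟩, ?_, hb2⟩
    simp only [mem_sigma, mem_filter, mem_univ, true_and, AA]
    constructor
    · have hc : cS (univ.image b) = cont w := by
        funext i
        unfold cS cont
        symm
        apply Finset.card_bij (fun j _ => a j)
        · intro j hj
          rw [mem_filter] at hj
          simp only [sl, mem_filter, mem_univ, true_and, mem_image]
          refine ⟨j, ?_⟩
          rw [← hj.2]; rfl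
        · intro j hj j' hj' h
          rw [mem_filter] at hj hj'
          apply hsm.injective
          rw [← hb2]
          show (toLex (a j, OrderDual.toDual (w j)) : Cell m N) = toLex (a j', OrderDual.toDual (w j'))
          rw [hj.2, hj'.2, h]
        · intro x hx
          simp only [sl, mem_filter, mem_univ, true_and, mem_image] at hx
          obtain ⟨j, hj⟩ := hx
          have h1 : a j = x := congrArg (fun p : Cell m N => (ofLex p).1) hj
          have h2 : w j = i := congrArg (fun p : Cell m N => OrderDual.ofDual (ofLex p).2) hj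
          exact ⟨j, by rw [mem_filter]; exact ⟨mem_univ _, h2⟩, h1⟩
      rw [← hc]; exact hΦ
    · intro i
      have h1 := (Fin.strictMono_iff_lt_succ.mp hsm) i
      rw [← hb2, Prod.Lex.toLex_lt_toLex] at h1
      rcases h1 with h | ⟨h, h'⟩
      · exact Or.inl h
      · exact Or.inr ⟨h, OrderDual.toDual_lt_toDual.mp h'⟩

lemma count3 {m N : ℕ} (Φ : (Fin (N + 1) → ℕ) → Prop) [DecidablePred Φ] :
    ((powersetCard (N + 1) (univ : Finset (Cell m N))).filter (fun S => Φ (cS S))).card =
      ∑ c ∈ (piAntidiag (univ : Finset (Fin (N + 1))) (N + 1)).filter Φ, ∏ i, (m + 1).choose (c i) := by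
  classical
  rw [Finset.card_eq_sum_card_fiberwise (f := cS) (t := (piAntidiag (univ : Finset (Fin (N + 1))) (N + 1)).filter Φ)]
  · apply Finset.sum_congr rfl
    intro c hc
    rw [mem_filter, mem_piAntidiag] at hc
    have h1 : ∏ i, (m + 1).choose (c i) =
        (Fintype.piFinset (fun i : Fin (N + 1) => powersetCard (c i) (univ : Finset (Fin (m + 1))))).card := by
      rw [Fintype.card_piFinset]
      apply Finset.prod_congr rfl
      intro i _
      rw [card_powersetCard, card_univ, Fintype.card_fin]
    rw [h1]
    apply Finset.card_bij (fun S _ => sl S)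
    · intro S hS
      simp only [mem_filter, mem_powersetCard] at hS
      rw [Fintype.mem_piFinset]
      intro i
      rw [mem_powersetCard]
      refine ⟨subset_univ _, ?_⟩
      rw [← hS.2]; rfl
    · intro S _ S' _ h
      ext p
      have h2 := congrFun h (OrderDual.ofDual (ofLex p).2)
      have h3 : (ofLex p).1 ∈ sl S (OrderDual.ofDual (ofLex p).2) ↔ (ofLex p).1 ∈ sl S' (OrderDual.ofDual (ofLex p).2) := by
        rw [h2]
      simp only [sl, mem_filter, mem_univ, true_and] at h3
      exact h3
    · intro f hf
      rw [Fintype.mem_piFinset] at hf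
      have hsl : sl (univ.filter (fun p : Cell m N => (ofLex p).1 ∈ f (OrderDual.ofDual (ofLex p).2))) = f := by
        funext i
        ext a
        simp only [sl, mem_filter, mem_univ, true_and]
        rfl
      have hcS : cS (univ.filter (fun p : Cell m N => (ofLex p).1 ∈ f (OrderDual.ofDual (ofLex p).2))) = c := by
        funext i
        unfold cS
        rw [hsl]
        exact (mem_powersetCard.mp (hf i)).2
      refine ⟨univ.filter (fun p : Cell m N => (ofLex p).1 ∈ f (OrderDual.ofDual (ofLex p).2)), ?_, hsl⟩
      simp only [mem_filter, mem_powersetCard]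
      refine ⟨⟨⟨subset_univ _, ?_⟩, ?_⟩, hcS⟩
      · rw [← sum_cS, hcS]; exact hc.1.1
      · rw [hcS]; exact hc.2
  · intro S hS
    simp only [mem_coe, mem_filter, mem_powersetCard] at hS ⊢
    rw [mem_piAntidiag]
    refine ⟨⟨?_, fun i _ => mem_univ i⟩, hS.2⟩
    have := sum_cS S
    rw [hS.1.2] at this
    exact this

lemma words {m N : ℕ} (Φ : (Fin (N + 1) → ℕ) → Prop) [DecidablePred Φ] :
    ∑ w ∈ univ.filter (fun w : Fin (N + 1) → Fin (N + 1) => Φ (cont w)), (m + 1 + des w).choose (N + 1) =
      ∑ c ∈ (piAntidiag (univ : Finset (Fin (N + 1))) (N + 1)).filter Φ, ∏ i, (m + 1).choose (c i) := by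
  rw [← count3, ← count2]
  apply Finset.sum_congr rfl
  intro w _
  rw [card_AA]

end X164.Arb
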