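import Pool.Agent.X164.AR.Tree
import Pool.Agent.X164.AR.Word2

open Finset Pointwise

namespace X164.Arb

variable {n : ℕ} (τ : Arbor n)

lemma mem_smul_Q (m : ℕ) (x : Fin n → ℝ) : x ∈ (m : ℝ) • τ.Q ↔
    (∀ i, 0 ≤ x i) ∧ ∀ v, ∑ i ∈ τ.D v, x i ≤ (m : ℝ) * ((τ.D v).card : ℝ) := by
  rw [Set.mem_smul_set]
  have hm : (0 : ℝ) ≤ m := Nat.cast_nonneg m
  constructor
  · rintro ⟨y, ⟨h1, h2⟩, rfl⟩
    refine ⟨fun i => mul_nonneg hm (h1 i), fun v => ?_⟩
    simp only [Pi.smul_apply, smul_eq_mul]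
    rw [← Finset.mul_sum]
    exact mul_le_mul_of_nonneg_left (h2 v) hm
  · rintro ⟨h1, h2⟩
    rcases hm.lt_or_eq with hpos | hz
    · refine ⟨(m : ℝ)⁻¹ • x, ⟨fun i => mul_nonneg (inv_nonneg.mpr hm) (h1 i), fun v => ?_⟩, ?_⟩
      · simp only [Pi.smul_apply, smul_eq_mul]
        rw [← Finset.mul_sum, inv_mul_le_iff₀ hpos]
        exact h2 v
      · rw [smul_smul, mul_inv_cancel₀ hpos.ne', one_smul]
    · refine ⟨0, ⟨fun i => le_refl _, fun v => by simp⟩, ?_⟩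
      rw [smul_zero]
      have h3 := h2 τ.root
      rw [D_root, ← hz, zero_mul] at h3
      have h4 : ∑ i, x i = 0 := le_antisymm h3 (Finset.sum_nonneg (fun i _ => h1 i))
      funext i
      exact ((Finset.sum_eq_zero_iff_of_nonneg (fun i _ => h1 i)).mp h4 i (mem_univ i)).symm

lemma mem_int (m : ℕ) (x : Fin n → ℤ) : (fun i => ((x i : ℤ) : ℝ)) ∈ (m : ℝ) • τ.Q ↔
    (∀ i, 0 ≤ x i) ∧ ∀ v, ∑ i ∈ τ.D v, x i ≤ (m : ℤ) * ((τ.D v).card : ℤ) := by
  rw [mem_smul_Q]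
  constructor
  · rintro ⟨h1, h2⟩
    exact ⟨fun i => by exact_mod_cast h1 i, fun v => by exact_mod_cast h2 v⟩
  · rintro ⟨h1, h2⟩
    exact ⟨fun i => by exact_mod_cast h1 i, fun v => by exact_mod_cast h2 v⟩

open Classical in
lemma ehr_eq (m : ℕ) : (ehr τ.Q m : ℤ) = ∑ s ∈ range (m * n + 1),
    ((((piAntidiag (univ : Finset (Fin n)) s).filter (fun x => ∀ v, ∑ i ∈ τ.D v, x i ≤ m * (τ.D v).card)).card : ℕ) : ℤ) := by
  rw [← Nat.cast_sum]
  congr 1
  rw [← Finset.card_sigma]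
  set F := (range (m * n + 1)).sigma (fun s => (piAntidiag (univ : Finset (Fin n)) s).filter
    (fun x => ∀ v, ∑ i ∈ τ.D v, x i ≤ m * (τ.D v).card)) with hF
  have hmemF : ∀ (s : ℕ) (x : Fin n → ℕ), (⟨s, x⟩ : (_ : ℕ) × (Fin n → ℕ)) ∈ F ↔
      s < m * n + 1 ∧ ∑ i, x i = s ∧ ∀ v, ∑ i ∈ τ.D v, x i ≤ m * (τ.D v).card := by
    intro s x
    rw [hF, mem_sigma, mem_range, mem_filter, mem_piAntidiag]
    constructor
    · rintro ⟨h1, ⟨h2, _⟩, h3⟩; exact ⟨h1, h2, h3⟩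
    · rintro ⟨h1, h2, h3⟩; exact ⟨h1, ⟨h2, fun i _ => mem_univ i⟩, h3⟩
  have hcard : Nat.card {q // q ∈ F} = F.card := by rw [Nat.card_eq_fintype_card, Fintype.card_coe]
  rw [← hcard]
  unfold ehr
  symm
  apply Nat.card_congr
  refine Equiv.ofBijective (fun q => ⟨fun i => (q.1.2 i : ℤ), ?_⟩) ⟨?_, ?_⟩
  · obtain ⟨⟨s, x⟩, h⟩ := q
    rw [hmemF] at h
    rw [mem_int]
    refine ⟨fun i => Int.natCast_nonneg _, fun v => ?_⟩
    exact_mod_cast h.2.2 v
  · rintro ⟨⟨s, x⟩, h⟩ ⟨⟨s', x'⟩, h'⟩ heq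
    have h1 := h
    have h1' := h'
    rw [hmemF] at h1 h1'
    have hx : x = x' := by
      funext i
      have : (x i : ℤ) = x' i := congrFun (congrArg Subtype.val heq) i
      exact_mod_cast this
    have hs : s = s' := by rw [← h1.2.1, ← h1'.2.1, hx]
    subst hx
    subst hs
    rfl
  · rintro ⟨x, hx⟩
    have hx2 := hx
    rw [mem_int] at hx2
    obtain ⟨h1, h2⟩ := hx2
    have hc : ∀ i, (((x i).toNat : ℕ) : ℤ) = x i := fun i => Int.toNat_of_nonneg (h1 i)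
    have h3 : ∀ v, ∑ i ∈ τ.D v, (x i).toNat ≤ m * (τ.D v).card := by
      intro v
      have h4 : ((∑ i ∈ τ.D v, (x i).toNat : ℕ) : ℤ) ≤ ((m * (τ.D v).card : ℕ) : ℤ) := by
        rw [Nat.cast_sum, Finset.sum_congr rfl (fun i _ => hc i)]
        push_cast
        exact h2 v
      exact_mod_cast h4
    have hmem : (⟨∑ i, (x i).toNat, fun i => (x i).toNat⟩ : (_ : ℕ) × (Fin n → ℕ)) ∈ F := by
      rw [hmemF]
      refine ⟨?_, rfl, h3⟩
      have := h3 τ.root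
      rw [D_root, card_univ, Fintype.card_fin] at this
      omega
    refine ⟨⟨_, hmem⟩, ?_⟩
    apply Subtype.ext
    funext i
    exact hc i

open Classical in
/-- The main identity for one dilate. -/
lemma ehr_words {N : ℕ} (τ : Arbor (N + 1)) (m : ℕ) :
    (ehr τ.Q m : ℤ) = ∑ w ∈ τ.W, ((m + 1 + des w).choose (N + 1) : ℤ) := by
  obtain ⟨L, hL, hLD⟩ := lam_root τ
  have h1 := total m hL
  rw [card_univ, Fintype.card_fin] at h1
  have h2 : ∀ s, cnt (fI m (insert univ L)) univ s =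
      ((((piAntidiag (univ : Finset (Fin (N + 1))) s).filter (fun x => ∀ v, ∑ i ∈ τ.D v, x i ≤ m * (τ.D v).card)).card : ℕ) : ℤ) := by
    intro s
    unfold cnt fI
    rw [Finset.sum_boole]
    congr 2
    ext x
    simp only [mem_filter]
    apply and_congr_right
    intro _
    constructor
    · intro h v; exact h (τ.D v) ((hLD _).mpr ⟨v, rfl⟩)
    · intro h D hD
      obtain ⟨v, rfl⟩ := (hLD D).mp hD
      exact h v
  rw [ehr_eq, ← Finset.sum_congr rfl (fun s _ => h2 s), h1]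
  have h3 := words (m := m) (N := N) (fun c => ∀ v, (τ.D v).card ≤ ∑ i ∈ τ.D v, c i)
  have h4 : τ.W = univ.filter (fun w : Fin (N + 1) → Fin (N + 1) => ∀ v, (τ.D v).card ≤ ∑ i ∈ τ.D v, cont w i) := by
    unfold Arbor.W
    ext w
    simp only [mem_filter, mem_univ, true_and]
    have h5 : ∀ v, (univ.filter (fun j => w j ∈ τ.D v)).card = ∑ i ∈ τ.D v, cont w i := by
      intro v
      rw [Finset.card_eq_sum_card_fiberwise (f := w) (t := τ.D v)]
      · apply Finset.sum_congr rfl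
        intro i hi
        unfold cont
        congr 1
        ext j
        simp only [mem_filter, mem_univ, true_and]
        constructor
        · rintro ⟨_, h⟩; exact h
        · intro h; exact ⟨by rw [h]; exact hi, h⟩
      · intro j hj
        simp only [coe_filter, Set.mem_setOf_eq] at hj
        exact hj.2
    constructor
    · intro h v; rw [← h5 v]; exact h v
    · intro h v; rw [h5 v]; exact h v
  rw [h4]
  have h6 : ((∑ w ∈ univ.filter (fun w : Fin (N + 1) → Fin (N + 1) => ∀ v, (τ.D v).card ≤ ∑ i ∈ τ.D v, cont w i), (m + 1 + des w).choose (N + 1) : ℕ) : ℤ) =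
      ((∑ c ∈ (piAntidiag (univ : Finset (Fin (N + 1))) (N + 1)).filter (fun c => ∀ v, (τ.D v).card ≤ ∑ i ∈ τ.D v, c i), ∏ i, (m + 1).choose (c i) : ℕ) : ℤ) := by
    exact_mod_cast h3
  rw [Nat.cast_sum] at h6
  rw [h6]
  unfold cnt gI
  rw [Nat.cast_sum, Finset.sum_filter]
  apply Finset.sum_congr rfl
  intro c _
  by_cases hc : ∀ v, (τ.D v).card ≤ ∑ i ∈ τ.D v, c i
  · rw [if_pos hc, if_pos, one_mul, Nat.cast_prod]
    intro D hD
    obtain ⟨v, rfl⟩ := (hLD D).mp hD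
    exact hc v
  · rw [if_neg hc, if_neg, zero_mul]
    intro h
    apply hc
    intro v; exact h (τ.D v) ((hLD _).mpr ⟨v, rfl⟩)

end X164.Arb
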