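import Pool.Agent.X164.AR.Def
import Pool.Agent.X164.AR.Cmb

open Finset

namespace X164.Arb

lemma Lam_biUnion {ι κ : Type} [DecidableEq ι] [DecidableEq κ] (C : Finset κ) (f : κ → Finset ι) (g : κ → Finset (Finset ι))
    (hd : ∀ a ∈ C, ∀ b ∈ C, a ≠ b → Disjoint (f a) (f b)) (h : ∀ c ∈ C, Lam (f c) (g c)) :
    Lam (C.biUnion f) (C.biUnion g) := by
  induction C using Finset.induction_on with
  | empty => simpa using Lam.empty
  | insert a s ha ih =>
    rw [biUnion_insert, biUnion_insert]
    apply Lam.union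
    · rw [disjoint_biUnion_right]
      intro b hb
      exact hd a (mem_insert_self _ _) b (mem_insert_of_mem hb) (fun h => ha (h ▸ hb))
    · exact h a (mem_insert_self _ _)
    · exact ih (fun a ha b hb => hd a (mem_insert_of_mem ha) b (mem_insert_of_mem hb))
        (fun c hc => h c (mem_insert_of_mem hc))

variable {n : ℕ} (τ : Arbor n)

lemma iter_root (j : ℕ) : τ.par^[j] τ.root = τ.root := by
  induction j with
  | zero => rfl
  | succ j ih => rw [Function.iterate_succ_apply', ih, τ.par_root]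

lemma no_cycle (u v : Fin τ.k) (huv : u ≠ v) (hp : τ.par u = v) : ¬ ∃ c : ℕ, τ.par^[c] v = u := by
  rintro ⟨c, hc⟩
  have hper : τ.par^[c + 1] v = v := by
    rw [Function.iterate_succ_apply', hc, hp]
  have hmul : ∀ t : ℕ, τ.par^[t * (c + 1)] v = v := by
    intro t
    induction t with
    | zero => simp
    | succ t ih => rw [add_mul, one_mul, Function.iterate_add_apply, hper, ih]
  obtain ⟨j, hj⟩ := τ.tree v
  have h1 : τ.par^[j * (c + 1)] v = τ.root := by
    have h2 : j * (c + 1) = j * c + j := by ring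
    rw [h2, Function.iterate_add_apply, hj, iter_root]
  have hv : v = τ.root := (hmul j).symm.trans h1
  rw [hv, iter_root] at hc
  exact huv (hc.symm.trans hv.symm)

lemma mem_D (v : Fin τ.k) (i : Fin n) : i ∈ τ.D v ↔ ∃ j : ℕ, τ.par^[j] (τ.blk i) = v := by
  unfold Arbor.D
  simp

lemma D_root : τ.D τ.root = univ := by
  ext i
  rw [mem_D]
  simp only [mem_univ, iff_true]
  exact τ.tree _

open Classical in
lemma lam_tree : ∀ (t : ℕ) (v : Fin τ.k), (univ.filter (fun u => ∃ j : ℕ, τ.par^[j] u = v)).card = t →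
    ∃ L, Lam (τ.D v) L ∧ ∀ D' : Finset (Fin n), D' ∈ insert (τ.D v) L ↔ ∃ u, (∃ j : ℕ, τ.par^[j] u = v) ∧ D' = τ.D u := by
  classical
  intro t
  induction t using Nat.strong_induction_on with
  | _ t ih =>
    intro v hv
    have hch : ∀ u, u ≠ v → τ.par u = v → ∃ L, Lam (τ.D u) L ∧
        ∀ D' : Finset (Fin n), D' ∈ insert (τ.D u) L ↔ ∃ x, (∃ j : ℕ, τ.par^[j] x = u) ∧ D' = τ.D x := by
      intro u huv hp
      apply ih _ _ u rfl
      rw [← hv]
      convert Finset.card_lt_card (s := univ.filter (fun x => ∃ j : ℕ, τ.par^[j] x = u))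
        (t := univ.filter (fun x => ∃ j : ℕ, τ.par^[j] x = v)) ?_
      rw [Finset.ssubset_iff_of_subset]
      · refine ⟨v, ?_, ?_⟩
        · simp only [mem_filter, mem_univ, true_and]; exact ⟨0, rfl⟩
        · simp only [mem_filter, mem_univ, true_and]
          exact no_cycle τ u v huv hp
      · intro x hx
        simp only [mem_filter, mem_univ, true_and] at hx ⊢
        obtain ⟨j, hj⟩ := hx
        exact ⟨j + 1, by rw [Function.iterate_succ_apply', hj, hp]⟩
    choose! Lf hLf using hch
    set Ch : Finset (Fin τ.k) := univ.filter (fun u => u ≠ v ∧ τ.par u = v) with hCh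
    have hmemCh : ∀ u, u ∈ Ch ↔ u ≠ v ∧ τ.par u = v := by intro u; simp [hCh]
    set B : Finset (Fin n) := univ.filter (fun i => τ.blk i = v) with hB
    have hstep : ∀ x, (∃ j : ℕ, τ.par^[j] x = v) ↔ x = v ∨ ∃ u ∈ Ch, ∃ j : ℕ, τ.par^[j] x = u := by
      intro x
      constructor
      · intro hx
        by_cases hxv : x = v
        · exact Or.inl hxv
        · right
          have h0 : Nat.find hx ≠ 0 := by
            intro h
            have := Nat.find_spec hx
            rw [h] at this
            exact hxv this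
          obtain ⟨l, hl⟩ := Nat.exists_eq_succ_of_ne_zero h0
          refine ⟨τ.par^[l] x, ?_, l, rfl⟩
          rw [hmemCh]
          constructor
          · intro h
            exact Nat.find_min hx (by omega : l < Nat.find hx) h
          · have := Nat.find_spec hx
            rw [hl, Nat.succ_eq_add_one, Function.iterate_succ_apply'] at this
            exact this
      · rintro (rfl | ⟨u, hu, j, hj⟩)
        · exact ⟨0, rfl⟩
        · exact ⟨j + 1, by rw [Function.iterate_succ_apply', hj, ((hmemCh u).mp hu).2]⟩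
    have hD : τ.D v = B ∪ Ch.biUnion τ.D := by
      ext i
      rw [mem_D, hstep, mem_union, mem_biUnion]
      constructor
      · rintro (h | ⟨u, hu, h⟩)
        · left; simp [hB, h]
        · right; exact ⟨u, hu, (mem_D τ u i).mpr h⟩
      · rintro (h | ⟨u, hu, h⟩)
        · left; simpa [hB] using h
        · right; exact ⟨u, hu, (mem_D τ u i).mp h⟩
    have hanc : ∀ u ∈ Ch, ∀ c : ℕ, τ.par^[c] v ≠ u := by
      intro u hu c h
      exact no_cycle τ u v ((hmemCh u).mp hu).1 ((hmemCh u).mp hu).2 ⟨c, h⟩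
    have hBd : Disjoint B (Ch.biUnion τ.D) := by
      rw [disjoint_biUnion_right]
      intro u hu
      rw [Finset.disjoint_left]
      intro i hi hi2
      simp only [hB, mem_filter, mem_univ, true_and] at hi
      rw [mem_D] at hi2
      obtain ⟨j, hj⟩ := hi2
      rw [hi] at hj
      exact hanc u hu j hj
    have hCd : ∀ a ∈ Ch, ∀ b ∈ Ch, a ≠ b → Disjoint (τ.D a) (τ.D b) := by
      intro a ha b hb hab
      rw [Finset.disjoint_left]
      intro i hi hi2
      rw [mem_D] at hi hi2
      obtain ⟨j, hj⟩ := hi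
      obtain ⟨l, hl⟩ := hi2
      have key : ∀ (a b : Fin τ.k), a ∈ Ch → b ∈ Ch → ∀ j l : ℕ, j < l → τ.par^[j] (τ.blk i) = a → τ.par^[l] (τ.blk i) = b → False := by
        intro a b ha hb j l hjl hj hl
        obtain ⟨c, rfl⟩ : ∃ c, l = c + 1 + j := ⟨l - j - 1, by omega⟩
        rw [Function.iterate_add_apply, hj, Function.iterate_succ_apply, ((hmemCh a).mp ha).2] at hl
        exact hanc b hb c hl
      rcases lt_trichotomy j l with h | h | h
      · exact key a b ha hb j l h hj hl
      · subst h; exact hab (hj.symm.trans hl)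
      · exact key b a hb ha l j h hl hj
    have hLamB : Lam B (∅ : Finset (Finset (Fin n))) := by
      have h1 := Lam_biUnion B (fun i => ({i} : Finset (Fin n))) (fun _ => (∅ : Finset (Finset (Fin n))))
        (by intro a _ b _ hab; exact disjoint_singleton.mpr hab) (fun c _ => Lam.single c)
      rw [biUnion_singleton_eq_self] at h1
      have h2 : B.biUnion (fun _ => (∅ : Finset (Finset (Fin n)))) = ∅ := by
        ext x; simp
      rw [h2] at h1
      exact h1
    have hLamC := Lam_biUnion Ch τ.D (fun u => insert (τ.D u) (Lf u)) hCd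
      (fun u hu => Lam.close _ _ (hLf u ((hmemCh u).mp hu).1 ((hmemCh u).mp hu).2).1)
    refine ⟨∅ ∪ Ch.biUnion (fun u => insert (τ.D u) (Lf u)), ?_, ?_⟩
    · rw [hD]
      exact Lam.union _ _ _ _ hBd hLamB hLamC
    · intro D'
      rw [empty_union, mem_insert, mem_biUnion]
      constructor
      · rintro (h | ⟨u, hu, h⟩)
        · exact ⟨v, ⟨0, rfl⟩, h⟩
        · obtain ⟨x, hx, hx2⟩ := ((hLf u ((hmemCh u).mp hu).1 ((hmemCh u).mp hu).2).2 D').mp h
          exact ⟨x, (hstep x).mpr (Or.inr ⟨u, hu, hx⟩), hx2⟩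
      · rintro ⟨x, hx, hx2⟩
        rcases (hstep x).mp hx with rfl | ⟨u, hu, hx3⟩
        · exact Or.inl hx2
        · right
          exact ⟨u, hu, ((hLf u ((hmemCh u).mp hu).1 ((hmemCh u).mp hu).2).2 D').mpr ⟨x, hx3, hx2⟩⟩

lemma lam_root : ∃ L, Lam (univ : Finset (Fin n)) L ∧ ∀ D' : Finset (Fin n), D' ∈ insert univ L ↔ ∃ u, D' = τ.D u := by
  obtain ⟨L, h1, h2⟩ := lam_tree τ _ τ.root rfl
  rw [D_root] at h1 h2
  refine ⟨L, h1, ?_⟩
  intro D'
  rw [h2]
  constructor
  · rintro ⟨u, _, h⟩; exact ⟨u, h⟩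
  · rintro ⟨u, h⟩; exact ⟨u, τ.tree u, h⟩

end X164.Arb
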