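import Mathlib

open Finset

namespace X164.Arb

/-- number of descents of a word -/
def des {N : ℕ} (w : Fin (N + 1) → Fin (N + 1)) : ℕ :=
  (univ.filter (fun i : Fin N => w i.succ < w i.castSucc)).card

lemma card_SM {α : Type} [LinearOrder α] [Fintype α] (k : ℕ) (Φ : Finset α → Prop) [DecidablePred Φ]
    [DecidablePred (fun b : Fin k → α => StrictMono b ∧ Φ (univ.image b))] :
    (univ.filter (fun b : Fin k → α => StrictMono b ∧ Φ (univ.image b))).card =
      ((powersetCard k (univ : Finset α)).filter Φ).card := by
  classical
  apply Finset.card_bij (fun b _ => univ.image b)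
  · intro b hb
    simp only [mem_filter, mem_univ, true_and] at hb
    rw [mem_filter, mem_powersetCard]
    refine ⟨⟨subset_univ _, ?_⟩, hb.2⟩
    rw [card_image_of_injective _ hb.1.injective, card_univ, Fintype.card_fin]
  · intro b hb b' hb' h
    simp only [mem_filter, mem_univ, true_and] at hb hb'
    have hc : (univ.image b).card = k := by
      rw [card_image_of_injective _ hb.1.injective, card_univ, Fintype.card_fin]
    have e1 := orderEmbOfFin_unique hc (f := b) (fun x => mem_image_of_mem b (mem_univ x)) hb.1
    have e2 := orderEmbOfFin_unique hc (f := b') (fun x => by rw [h]; exact mem_image_of_mem b' (mem_univ x)) hb'.1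
    exact e1.trans e2.symm
  · intro S hS
    rw [mem_filter, mem_powersetCard] at hS
    obtain ⟨⟨_, hc⟩, hΦ⟩ := hS
    have him : univ.image (S.orderEmbOfFin hc) = S := by
      ext x
      rw [mem_image]
      have := congrArg (fun s : Set α => x ∈ s) (range_orderEmbOfFin S hc)
      simp only [Set.mem_range, mem_coe, eq_iff_iff] at this
      rw [← this]
      simp
    refine ⟨S.orderEmbOfFin hc, ?_, him⟩
    simp only [mem_filter, mem_univ, true_and]
    exact ⟨(S.orderEmbOfFin hc).strictMono, by rw [him]; exact hΦ⟩

lemma card_SM' (k M : ℕ) :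
    (univ.filter (fun b : Fin k → Fin M => StrictMono b)).card = M.choose k := by
  classical
  have h := card_SM (α := Fin M) k (fun _ => True)
  simp only [and_true, filter_true] at h
  rw [h, card_powersetCard, card_univ, Fintype.card_fin]

/-- admissible sequences for the word `w` -/
def AA {N : ℕ} (m : ℕ) (w : Fin (N + 1) → Fin (N + 1)) : Finset (Fin (N + 1) → Fin (m + 1)) :=
  univ.filter (fun a => ∀ i : Fin N, a i.castSucc < a i.succ ∨ (a i.castSucc = a i.succ ∧ w i.succ < w i.castSucc))

/-- number of descents before position `i` -/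
def dc {N : ℕ} (w : Fin (N + 1) → Fin (N + 1)) (i : Fin (N + 1)) : ℕ :=
  (univ.filter (fun j : Fin N => (j : ℕ) < i ∧ w j.succ < w j.castSucc)).card

lemma dc_zero {N : ℕ} (w : Fin (N + 1) → Fin (N + 1)) : dc w 0 = 0 := by
  unfold dc; simp

lemma dc_last {N : ℕ} (w : Fin (N + 1) → Fin (N + 1)) : dc w (Fin.last N) = des w := by
  unfold dc des
  congr 1
  ext j
  simp

lemma dc_succ {N : ℕ} (w : Fin (N + 1) → Fin (N + 1)) (i : Fin N) :
    dc w i.succ = dc w i.castSucc + (if w i.succ < w i.castSucc then 1 else 0) := by
  unfold dc
  split_ifs with h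
  · have : univ.filter (fun j : Fin N => (j : ℕ) < (i.succ : Fin (N + 1)) ∧ w j.succ < w j.castSucc) =
        insert i (univ.filter (fun j : Fin N => (j : ℕ) < (i.castSucc : Fin (N + 1)) ∧ w j.succ < w j.castSucc)) := by
      ext j
      simp only [mem_filter, mem_univ, true_and, mem_insert, Fin.val_succ, Fin.val_castSucc]
      constructor
      · rintro ⟨h1, h2⟩
        by_cases hj : j = i
        · exact Or.inl hj
        · right
          refine ⟨?_, h2⟩
          have : (j : ℕ) ≠ i := fun h => hj (Fin.ext h)
          omega
      · rintro (rfl | ⟨h1, h2⟩)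
        · exact ⟨by omega, h⟩
        · exact ⟨by omega, h2⟩
    rw [this, card_insert_of_notMem]
    simp
  · rw [add_zero]
    congr 1
    ext j
    simp only [mem_filter, mem_univ, true_and, Fin.val_succ, Fin.val_castSucc]
    constructor
    · rintro ⟨h1, h2⟩
      refine ⟨?_, h2⟩
      have : (j : ℕ) ≠ i := by
        intro hj
        have : j = i := Fin.ext hj
        subst this
        exact h h2
      omega
    · rintro ⟨h1, h2⟩
      exact ⟨by omega, h2⟩

lemma card_AA {N : ℕ} (m : ℕ) (w : Fin (N + 1) → Fin (N + 1)) :
    (AA m w).card = (m + 1 + des w).choose (N + 1) := by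
  classical
  rw [← card_SM' (N + 1) (m + 1 + des w)]
  have hdc : ∀ i, dc w i ≤ des w := by
    intro i
    unfold dc des
    apply card_le_card
    intro j hj
    simp only [mem_filter, mem_univ, true_and] at hj ⊢
    exact hj.2
  apply Finset.card_bij (fun a _ => fun i => (⟨(a i : ℕ) + dc w i, by have := (a i).2; have := hdc i; omega⟩ : Fin (m + 1 + des w)))
  · intro a ha
    simp only [AA, mem_filter, mem_univ, true_and] at ha ⊢
    rw [Fin.strictMono_iff_lt_succ]
    intro i
    rw [Fin.lt_def]
    simp only
    rw [dc_succ]
    rcases ha i with h | ⟨h1, h2⟩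
    · have := Fin.lt_def.mp h
      split_ifs <;> omega
    · rw [if_pos h2, h1]; omega
  · intro a _ a' _ h
    funext i
    have hi := congrFun h i
    rw [Fin.ext_iff] at hi ⊢
    simp only at hi
    omega
  · intro b hb
    simp only [mem_filter, mem_univ, true_and] at hb
    rw [Fin.strictMono_iff_lt_succ] at hb
    have hmono : Monotone (fun i => ((b i : ℕ) : ℤ) - dc w i) := by
      rw [Fin.monotone_iff_le_succ]
      intro i
      show ((b i.castSucc : ℕ) : ℤ) - dc w i.castSucc ≤ ((b i.succ : ℕ) : ℤ) - dc w i.succ
      have h1 := Fin.lt_def.mp (hb i)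
      rw [dc_succ]
      split_ifs <;> push_cast <;> omega
    have hlo : ∀ i, 0 ≤ ((b i : ℕ) : ℤ) - dc w i := by
      intro i
      have := hmono (Fin.zero_le i)
      simp only [dc_zero] at this
      omega
    have hhi : ∀ i, ((b i : ℕ) : ℤ) - dc w i ≤ m := by
      intro i
      have := hmono (Fin.le_last i)
      simp only [dc_last] at this
      have h2 := (b (Fin.last N)).2
      omega
    refine ⟨fun i => ⟨(b i : ℕ) - dc w i, by have := hlo i; have := hhi i; omega⟩, ?_, ?_⟩
    · simp only [AA, mem_filter, mem_univ, true_and]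
      intro i
      have h1 := Fin.lt_def.mp (hb i)
      have h2 := dc_succ w i
      have h3 := hlo i.castSucc
      have h4 := hlo i.succ
      rw [Fin.lt_def, Fin.ext_iff]
      simp only
      by_cases h : w i.succ < w i.castSucc
      · rw [if_pos h] at h2
        by_cases h5 : (b i.castSucc : ℕ) - dc w i.castSucc < (b i.succ : ℕ) - dc w i.succ
        · exact Or.inl h5
        · right; exact ⟨by omega, h⟩
      · rw [if_neg h] at h2
        left; omega
    · funext i
      rw [Fin.ext_iff]
      simp only
      have := hlo i
      omega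

end X164.Arb
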